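import Mathlib

set_option autoImplicit false

/-! The field with `13 ^ 4` elements as `F_13 [t] / (t ^ 4 - 2)`, quadratic character and the values
of the Chebyshev polynomial `φ_10`. -/

namespace Pool.Agent.H25V

/-- number of square roots of `n < 13` modulo `13` -/
def rt (n : ℕ) : ℕ :=
  if n = 0 then 1
  else if n = 1 then 2 else if n = 3 then 2 else if n = 4 then 2 else if n = 9 then 2
  else if n = 10 then 2 else if n = 12 then 2 else 0

/-- the norm of `r0 + r1 t + r2 t ^ 2 + r3 t ^ 3` -/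
def nm (r0 r1 r2 r3 : ℕ) : ℕ :=
  let A := (r0 * r0 + 2 * r2 * r2 + 9 * r1 * r3) % 13
  let B := (2 * r0 * r2 + 12 * r1 * r1 + 11 * r3 * r3) % 13
  (A * A + 11 * B * B) % 13

/-- the number of the `y` with `y ^ 2 = φ_10 (x)`, `x = a + b t + c t ^ 2 + d t ^ 3` -/
def cnt (a b c d : ℕ) : ℕ :=
  let u0 := (a * a + 4 * b * d + 2 * c * c + 11) % 13
  let u1 := (2 * a * b + 4 * c * d) % 13
  let u2 := (2 * a * c + b * b + 2 * d * d) % 13
  let u3 := (2 * a * d + 2 * b * c) % 13
  let v0 := (u0 * u0 + 4 * u1 * u3 + 2 * u2 * u2) % 13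
  let v1 := (2 * u0 * u1 + 4 * u2 * u3) % 13
  let v2 := (2 * u0 * u2 + u1 * u1 + 2 * u3 * u3) % 13
  let v3 := (2 * u0 * u3 + 2 * u1 * u2) % 13
  let g0 := (v0 * v0 + 4 * v1 * v3 + 2 * v2 * v2 + 8 * v0 + 5) % 13
  let g1 := (2 * v0 * v1 + 4 * v2 * v3 + 8 * v1) % 13
  let g2 := (2 * v0 * v2 + v1 * v1 + 2 * v3 * v3 + 8 * v2) % 13
  let g3 := (2 * v0 * v3 + 2 * v1 * v2 + 8 * v3) % 13
  let r0 := (u0 * g0 + 2 * (u1 * g3 + u2 * g2 + u3 * g1)) % 13
  let r1 := (u0 * g1 + u1 * g0 + 2 * (u2 * g3 + u3 * g2)) % 13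
  let r2 := (u0 * g2 + u1 * g1 + u2 * g0 + 2 * u3 * g3) % 13
  let r3 := (u0 * g3 + u1 * g2 + u2 * g1 + u3 * g0) % 13
  rt (nm r0 r1 r2 r3)

/-- sum over `0, …, 12` -/
def s13 (f : ℕ → ℕ) : ℕ :=
  f 0 + f 1 + f 2 + f 3 + f 4 + f 5 + f 6 + f 7 + f 8 + f 9 + f 10 + f 11 + f 12

def row (a : ℕ) : ℕ := s13 fun b => s13 fun c => s13 fun d => cnt a b c d

set_option maxRecDepth 100000 in
theorem row0 : row 0 = 2248 := by decide +kernel

set_option maxRecDepth 100000 in
theorem row1 : row 1 = 2354 := by decide +kernel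

set_option maxRecDepth 100000 in
theorem row2 : row 2 = 2258 := by decide +kernel

set_option maxRecDepth 100000 in
theorem row3 : row 3 = 2394 := by decide +kernel

set_option maxRecDepth 100000 in
theorem row4 : row 4 = 2258 := by decide +kernel

set_option maxRecDepth 100000 in
theorem row5 : row 5 = 2334 := by decide +kernel

set_option maxRecDepth 100000 in
theorem row6 : row 6 = 2234 := by decide +kernel

set_option maxRecDepth 100000 in
theorem row7 : row 7 = 2234 := by decide +kernel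

set_option maxRecDepth 100000 in
theorem row8 : row 8 = 2334 := by decide +kernel

set_option maxRecDepth 100000 in
theorem row9 : row 9 = 2258 := by decide +kernel

set_option maxRecDepth 100000 in
theorem row10 : row 10 = 2394 := by decide +kernel

set_option maxRecDepth 100000 in
theorem row11 : row 11 = 2258 := by decide +kernel

set_option maxRecDepth 100000 in
theorem row12 : row 12 = 2354 := by decide +kernel

theorem total : s13 row = 29912 := by
  unfold s13
  rw [row0, row1, row2, row3, row4, row5, row6, row7, row8, row9, row10, row11, row12]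

end Pool.Agent.H25V
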