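import Pool.Agent.H25V.K

set_option autoImplicit false

namespace Pool.Agent.H25V

open Finset

instance : Fact (Nat.Prime 13) := ⟨by norm_num⟩

section
variable {K : Type} [Field K] [CharP K 13]

lemma h13 : (13 : K) = 0 := by
  have := CharP.cast_eq_zero K 13
  exact_mod_cast this

lemma exists_root [Fintype K] (hc : Fintype.card K = 28561) : ∃ t : K, t ^ 4 = 2 := by
  classical
  obtain ⟨g, hg⟩ := IsCyclic.exists_generator (α := Kˣ)
  have hord : orderOf g = 28560 := by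
    rw [orderOf_eq_card_of_forall_mem_zpowers hg, Nat.card_eq_fintype_card, Fintype.card_units,
      hc]
  have h2 : (2 : K) ≠ 0 := by
    intro h
    have h1 : ((2 : ℕ) : K) = 0 := by exact_mod_cast h
    rw [CharP.cast_eq_zero_iff K 13] at h1
    norm_num at h1
  have hu := hg (Units.mk0 2 h2)
  rw [← mem_powers_iff_mem_zpowers] at hu
  obtain ⟨k, hk⟩ := hu
  have hk' : g ^ k = Units.mk0 2 h2 := hk
  have hp : (Units.mk0 (2 : K) h2) ^ 12 = 1 := by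
    ext
    push_cast
    rw [Units.val_mk0]
    linear_combination 315 * (h13 : (13 : K) = 0)
  have h3 : g ^ (7140 * k) = 1 := by
    rw [mul_comm, pow_mul, hk', show 7140 = 12 * 595 by norm_num, pow_mul, hp, one_pow]
  have h4 : 28560 ∣ 7140 * k := hord ▸ orderOf_dvd_of_pow_eq_one h3
  have h5 : 4 ∣ k := by
    obtain ⟨c, hc⟩ := h4
    exact ⟨c, by omega⟩
  obtain ⟨j, rfl⟩ := h5
  refine ⟨((g ^ j : Kˣ) : K), ?_⟩
  have : (g ^ j) ^ 4 = Units.mk0 2 h2 := by rw [← pow_mul, mul_comm, hk']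
  have h6 := congrArg (Units.val) this
  push_cast at h6 ⊢
  rw [Units.val_mk0] at h6
  exact h6

/-- the Frobenius map -/
noncomputable def fr : K →+* K := frobenius K 13

lemma fr_def (x : K) : fr x = x ^ 13 := frobenius_def ..

lemma fr_t {t : K} (ht : t ^ 4 = 2) : fr t = 8 * t := by
  rw [fr_def]
  have : t ^ 13 = (t ^ 4) ^ 3 * t := by ring
  rw [this, ht]; norm_num

lemma fr_nat (n : ℕ) : fr (n : K) = n := map_natCast fr n

lemma fr_2 : fr (2 : K) = 2 := by exact_mod_cast fr_nat (K := K) 2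
lemma fr_4 : fr (4 : K) = 4 := by exact_mod_cast fr_nat (K := K) 4
lemma fr_8 : fr (8 : K) = 8 := by exact_mod_cast fr_nat (K := K) 8

/-- the element with the coordinates `a, b, c, d` -/
def el (t a b c d : K) : K := a + b * t + c * t ^ 2 + d * t ^ 3

/-- the conjugate over the subfield with `169` elements -/
lemma conj {t : K} (ht : t ^ 4 = 2) (a b c d : ℕ) :
    el t a b c d ^ 169 = el t a (-b) c (-d) := by
  have h : el t a b c d ^ 169 = fr (fr (el t a b c d)) := by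
    rw [fr_def, fr_def, ← pow_mul]
  rw [h]
  unfold el
  simp only [map_add, map_mul, map_pow, map_natCast, fr_t ht, fr_8]
  linear_combination (5 * (b : K) * t + 315 * c * t ^ 2 + 20165 * d * t ^ 3) * (h13 : (13 : K) = 0)

lemma norm_sq {t : K} (ht : t ^ 4 = 2) (a b c d : ℕ) : el t a b c d ^ 170 =
    ((a : K) ^ 2 + 2 * c ^ 2 - 4 * b * d) + (2 * a * c - b ^ 2 - 2 * d ^ 2) * t ^ 2 := by
  rw [show 170 = 169 + 1 by norm_num, pow_succ, conj ht]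
  unfold el
  linear_combination ((c : K) ^ 2 - 2 * b * d - d ^ 2 * t ^ 2) * ht

lemma norm_full {t : K} (ht : t ^ 4 = 2) (a b c d : ℕ) : el t a b c d ^ 2380 =
    ((a : K) ^ 2 + 2 * c ^ 2 - 4 * b * d) ^ 2 - 2 * (2 * a * c - b ^ 2 - 2 * d ^ 2) ^ 2 := by
  rw [show 2380 = 170 * 14 by norm_num, pow_mul, norm_sq ht, pow_succ]
  have h : (((a : K) ^ 2 + 2 * c ^ 2 - 4 * b * d) + (2 * a * c - b ^ 2 - 2 * d ^ 2) * t ^ 2) ^ 13 =
      ((a : K) ^ 2 + 2 * c ^ 2 - 4 * b * d) - (2 * a * c - b ^ 2 - 2 * d ^ 2) * t ^ 2 := by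
    rw [← fr_def]
    simp only [map_add, map_sub, map_mul, map_pow, map_natCast, fr_t ht, fr_2, fr_4]
    linear_combination (5 * (2 * (a : K) * c - b ^ 2 - 2 * d ^ 2) * t ^ 2) * (h13 : (13 : K) = 0)
  rw [h]
  linear_combination (-(2 * (a : K) * c - b ^ 2 - 2 * d ^ 2) ^ 2) * ht

lemma rt_val (n : ℕ) (hn : n < 13) : ((n : K)) ^ 6 = (rt n : K) - 1 := by
  have h : ∀ m < 13, (m ^ 6 + 1) % 13 = (rt m) % 13 := by decide
  have h1 := h n hn
  have h2 : ((n ^ 6 + 1 : ℕ) : K) = ((rt n : ℕ) : K) := by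
    rw [CharP.cast_eq_mod K 13 (n ^ 6 + 1), h1, ← CharP.cast_eq_mod K 13]
  push_cast at h2
  linear_combination h2

lemma sq_el {t : K} (ht : t ^ 4 = 2) (x0 x1 x2 x3 : K) : el t x0 x1 x2 x3 ^ 2 =
    el t (x0 ^ 2 + 4 * x1 * x3 + 2 * x2 ^ 2) (2 * x0 * x1 + 4 * x2 * x3)
      (2 * x0 * x2 + x1 ^ 2 + 2 * x3 ^ 2) (2 * x0 * x3 + 2 * x1 * x2) := by
  unfold el
  linear_combination (2 * x1 * x3 + x2 ^ 2 + 2 * x2 * x3 * t + x3 ^ 2 * t ^ 2) * ht

lemma mul_el {t : K} (ht : t ^ 4 = 2) (x0 x1 x2 x3 y0 y1 y2 y3 : K) :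
    el t x0 x1 x2 x3 * el t y0 y1 y2 y3 =
    el t (x0 * y0 + 2 * (x1 * y3 + x2 * y2 + x3 * y1)) (x0 * y1 + x1 * y0 + 2 * (x2 * y3 + x3 * y2))
      (x0 * y2 + x1 * y1 + x2 * y0 + 2 * x3 * y3) (x0 * y3 + x1 * y2 + x2 * y1 + x3 * y0) := by
  unfold el
  linear_combination ((x1 * y3 + x2 * y2 + x3 * y1) + (x2 * y3 + x3 * y2) * t +
    x3 * y3 * t ^ 2) * ht

lemma cm (n : ℕ) : ((n % 13 : ℕ) : K) = (n : K) := (CharP.cast_eq_mod K 13 n).symm

lemma nm_val (r0 r1 r2 r3 : ℕ) : ((nm r0 r1 r2 r3 : ℕ) : K) =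
    ((r0 : K) ^ 2 + 2 * r2 ^ 2 - 4 * r1 * r3) ^ 2 - 2 * (2 * r0 * r2 - r1 ^ 2 - 2 * r3 ^ 2) ^ 2 := by
  unfold nm
  simp only [cm, Nat.cast_add, Nat.cast_mul, Nat.cast_ofNat]
  have hA : ((r0 : K) * r0 + 2 * r2 * r2 + 9 * r1 * r3) = (r0 : K) ^ 2 + 2 * r2 ^ 2 - 4 * r1 * r3 := by
    linear_combination ((r1 : K) * r3) * (h13 : (13 : K) = 0)
  have hB : (2 * (r0 : K) * r2 + 12 * r1 * r1 + 11 * r3 * r3) = 2 * r0 * r2 - r1 ^ 2 - 2 * r3 ^ 2 := by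
    linear_combination ((r1 : K) ^ 2 + r3 ^ 2) * (h13 : (13 : K) = 0)
  rw [hA, hB]
  linear_combination ((2 * (r0 : K) * r2 - r1 ^ 2 - 2 * r3 ^ 2) ^ 2) * (h13 : (13 : K) = 0)

lemma nm_lt (r0 r1 r2 r3 : ℕ) : nm r0 r1 r2 r3 < 13 := Nat.mod_lt _ (by norm_num)

/-- the value of `φ_10` -/
lemma cnt_val {t : K} (ht : t ^ 4 = 2) (a b c d : ℕ) :
    (((el t a b c d) ^ 2 - 2) * ((((el t a b c d) ^ 2 - 2) ^ 2) ^ 2 -
      5 * ((el t a b c d) ^ 2 - 2) ^ 2 + 5)) ^ 14280 = (cnt a b c d : K) - 1 := by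
  unfold cnt
  extract_lets u0 u1 u2 u3 v0 v1 v2 v3 g0 g1 g2 g3 r0 r1 r2 r3
  have hu : (el t a b c d) ^ 2 - 2 = el t u0 u1 u2 u3 := by
    rw [sq_el ht]
    simp only [u0, u1, u2, u3, cm, Nat.cast_add, Nat.cast_mul, Nat.cast_ofNat]
    unfold el
    linear_combination -(h13 : (13 : K) = 0)
  have hv : (el t (u0 : K) u1 u2 u3) ^ 2 = el t v0 v1 v2 v3 := by
    rw [sq_el ht]
    simp only [v0, v1, v2, v3, cm, Nat.cast_add, Nat.cast_mul, Nat.cast_ofNat]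
    unfold el
    ring
  have hg : (el t (v0 : K) v1 v2 v3) ^ 2 - 5 * el t v0 v1 v2 v3 + 5 = el t g0 g1 g2 g3 := by
    rw [sq_el ht]
    simp only [g0, g1, g2, g3, cm, Nat.cast_add, Nat.cast_mul, Nat.cast_ofNat]
    unfold el
    linear_combination -((v0 : K) + v1 * t + v2 * t ^ 2 + v3 * t ^ 3) * (h13 : (13 : K) = 0)
  have hr : el t (u0 : K) u1 u2 u3 * el t g0 g1 g2 g3 = el t r0 r1 r2 r3 := by
    rw [mul_el ht]
    simp only [r0, r1, r2, r3, cm, Nat.cast_add, Nat.cast_mul, Nat.cast_ofNat]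
  rw [hu, hv, hg, hr, show 14280 = 2380 * 6 by norm_num, pow_mul, norm_full ht, ← nm_val,
    rt_val _ (nm_lt _ _ _ _)]

end

end Pool.Agent.H25V
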