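import Pool.Agent.H25V.L

set_option autoImplicit false

namespace Pool.Agent.H25V

open Finset

lemma indep (a b c d : ZMod 13) (hA : a ^ 2 + 2 * c ^ 2 - 4 * b * d = 0)
    (hB : 2 * a * c - b ^ 2 - 2 * d ^ 2 = 0) : a = 0 ∧ b = 0 ∧ c = 0 ∧ d = 0 := by
  have D1 : ∀ p q : ZMod 13, p ^ 2 + 2 * q ^ 2 = 0 → p = 0 ∧ q = 0 := by decide
  have D2 : ∀ b d : ZMod 13, b ^ 2 - 2 * d ^ 2 = 0 → b = 0 ∧ d = 0 := by decide
  obtain ⟨h1, h2⟩ := D1 (a * b - 2 * c * d) (c * b - a * d) (by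
    linear_combination (b ^ 2 + 2 * d ^ 2) * hA - 4 * b * d * hB)
  have h3 : (b ^ 2 - 2 * d ^ 2) ^ 2 = 0 := by
    linear_combination 2 * b * d * hA - (b ^ 2 + 2 * d ^ 2) * hB +
      2 * (c * b - a * d) * h1
  obtain ⟨rfl, rfl⟩ := D2 b d (pow_eq_zero_iff two_ne_zero |>.1 h3)
  obtain ⟨rfl, rfl⟩ := D1 a c (by linear_combination hA)
  exact ⟨rfl, rfl, rfl, rfl⟩

lemma D3 : ∀ A B : ZMod 13, A ^ 2 - 2 * B ^ 2 = 0 → A = 0 ∧ B = 0 := by decide

section
variable {K : Type} [Field K] [CharP K 13]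

/-- the prime field -/
def io : ZMod 13 →+* K := ZMod.castHom (dvd_refl 13) K

lemma io_val (a : ZMod 13) : (io a : K) = ((a.val : ℕ) : K) := by
  conv_lhs => rw [← ZMod.natCast_zmod_val a]
  rw [map_natCast]

lemma io_inj : Function.Injective (io : ZMod 13 →+* K) := RingHom.injective _

/-- coordinates -/
def E (t : K) (p : ZMod 13 × ZMod 13 × ZMod 13 × ZMod 13) : K :=
  el t (io p.1) (io p.2.1) (io p.2.2.1) (io p.2.2.2)

lemma E_eq (t : K) (p : ZMod 13 × ZMod 13 × ZMod 13 × ZMod 13) :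
    E t p = el t ((p.1.val : ℕ) : K) ((p.2.1.val : ℕ) : K) ((p.2.2.1.val : ℕ) : K)
      ((p.2.2.2.val : ℕ) : K) := by
  unfold E
  rw [io_val, io_val, io_val, io_val]

lemma E_zero {t : K} (ht : t ^ 4 = 2) (p : ZMod 13 × ZMod 13 × ZMod 13 × ZMod 13)
    (h : E t p = 0) : p = 0 := by
  obtain ⟨a, b, c, d⟩ := p
  have h2 := norm_full ht a.val b.val c.val d.val
  have h1 := norm_sq ht a.val b.val c.val d.val
  rw [E_eq] at h
  rw [h, zero_pow (by norm_num)] at h1 h2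
  simp only [← io_val] at h1 h2
  have h3 : (io ((a ^ 2 + 2 * c ^ 2 - 4 * b * d) ^ 2 - 2 * (2 * a * c - b ^ 2 - 2 * d ^ 2) ^ 2) : K)
      = 0 := by
    simp only [map_sub, map_add, map_mul, map_pow, map_ofNat]
    exact h2.symm
  have h4 := (map_eq_zero_iff _ (io_inj (K := K))).1 h3
  obtain ⟨h5, h6⟩ := D3 _ _ h4
  obtain ⟨rfl, rfl, rfl, rfl⟩ := indep a b c d h5 h6
  rfl

lemma E_sub (t : K) (p q : ZMod 13 × ZMod 13 × ZMod 13 × ZMod 13) :
    E t (p - q) = E t p - E t q := by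
  unfold E el
  simp only [Prod.fst_sub, Prod.snd_sub, map_sub]
  ring

lemma E_bij [Fintype K] (hc : Fintype.card K = 28561) {t : K} (ht : t ^ 4 = 2) :
    Function.Bijective (E t) := by
  rw [Fintype.bijective_iff_injective_and_card]
  refine ⟨fun p q h => ?_, ?_⟩
  · have := E_zero ht (p - q) (by rw [E_sub, h, sub_self])
    exact sub_eq_zero.1 this
  · rw [hc]
    simp [ZMod.card]

lemma rt_le (n : ℕ) : rt n ≤ 2 := by
  unfold rt
  split_ifs <;> norm_num

lemma cnt_le (a b c d : ℕ) : cnt a b c d ≤ 2 := rt_le _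

/-- the polynomial `φ_10` -/
def f10 (x : K) : K := (x ^ 2 - 2) * (((x ^ 2 - 2) ^ 2) ^ 2 - 5 * (x ^ 2 - 2) ^ 2 + 5)

lemma chi_val [Fintype K] [DecidableEq K] (hc : Fintype.card K = 28561) {t : K} (ht : t ^ 4 = 2)
    (p : ZMod 13 × ZMod 13 × ZMod 13 × ZMod 13) :
    quadraticChar K (f10 (E t p)) =
      (cnt p.1.val p.2.1.val p.2.2.1.val p.2.2.2.val : ℤ) - 1 := by
  have hch : ringChar K ≠ 2 := by
    rw [ringChar.eq K 13]; norm_num
  have h1 := quadraticChar_eq_pow_of_char_ne_two' hch (f10 (E t p))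
  rw [hc, show 28561 / 2 = 14280 by norm_num] at h1
  have h2 := cnt_val ht p.1.val p.2.1.val p.2.2.1.val p.2.2.2.val
  rw [← E_eq] at h2
  have h3 : (f10 (E t p)) ^ 14280 = (cnt p.1.val p.2.1.val p.2.2.1.val p.2.2.2.val : K) - 1 := h2
  rw [h3] at h1
  have h4 : (((quadraticChar K (f10 (E t p))) -
      ((cnt p.1.val p.2.1.val p.2.2.1.val p.2.2.2.val : ℤ) - 1) : ℤ) : K) = 0 := by
    push_cast
    rw [h1]; ring
  rw [CharP.intCast_eq_zero_iff K 13] at h4
  have h5 := cnt_le p.1.val p.2.1.val p.2.2.1.val p.2.2.2.val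
  have h6 : quadraticChar K (f10 (E t p)) = 0 ∨ quadraticChar K (f10 (E t p)) = 1 ∨
      quadraticChar K (f10 (E t p)) = -1 := quadraticChar_isQuadratic K _
  obtain ⟨k, hk⟩ := h4
  push_cast at hk
  omega

lemma sum_z (h : ℕ → ℕ) : ∑ a : ZMod 13, h a.val = s13 h := by
  have : ∑ a : ZMod 13, h a.val = ∑ a : Fin 13, h a.val := rfl
  rw [this, Fin.sum_univ_eq_sum_range (fun i => h i) 13]
  simp [Finset.sum_range_succ, s13]

lemma sum_cnt : ∑ p : ZMod 13 × ZMod 13 × ZMod 13 × ZMod 13,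
    cnt p.1.val p.2.1.val p.2.2.1.val p.2.2.2.val = 29912 := by
  rw [Fintype.sum_prod_type]
  have h1 : ∀ a : ZMod 13, ∑ q : ZMod 13 × ZMod 13 × ZMod 13,
      cnt a.val q.1.val q.2.1.val q.2.2.val = row a.val := by
    intro a
    rw [Fintype.sum_prod_type]
    have h2 : ∀ b : ZMod 13, ∑ q : ZMod 13 × ZMod 13, cnt a.val b.val q.1.val q.2.val =
        s13 fun c => s13 fun d => cnt a.val b.val c d := by
      intro b
      rw [Fintype.sum_prod_type]
      have h3 : ∀ c : ZMod 13, ∑ d : ZMod 13, cnt a.val b.val c.val d.val =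
          s13 fun d => cnt a.val b.val c.val d := fun c => sum_z _
      simp only [h3]
      exact sum_z (fun c => s13 fun d => cnt a.val b.val c d)
    simp only [h2]
    exact sum_z (fun b => s13 fun c => s13 fun d => cnt a.val b c d)
  simp only [h1]
  rw [sum_z row, total]

lemma sum_chi [Fintype K] [DecidableEq K] (hc : Fintype.card K = 28561) :
    ∑ x : K, quadraticChar K (f10 x) = 1351 := by
  obtain ⟨t, ht⟩ := exists_root hc
  rw [← (E_bij hc ht).sum_comp (fun x => quadraticChar K (f10 x))]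
  simp only [chi_val hc ht]
  rw [sum_sub_distrib]
  have h := sum_cnt
  have h' : ∑ p : ZMod 13 × ZMod 13 × ZMod 13 × ZMod 13,
    (cnt p.1.val p.2.1.val p.2.2.1.val p.2.2.2.val : ℤ) = 29912 := by exact_mod_cast h
  rw [h']
  simp [ZMod.card]

end

end Pool.Agent.H25V
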