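import Mathlib

set_option autoImplicit false
set_option linter.unusedSectionVars false

/-! The sum of the quadratic character at the numbers `u ^ n + 1`, `n` even, `n ∣ r + 1`, over the field with `r ^ 2` elements. -/

namespace Pool.Agent.H25V

open Finset

variable {F : Type} [Field F] [Fintype F] [DecidableEq F] {r : ℕ}

/-- the subfield with `r` elements -/
def RF (F : Type) [Field F] [Fintype F] [DecidableEq F] (r : ℕ) : Finset F := univ.filter fun x => x ^ r = x

/-- its nonzero elements -/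
def KF (F : Type) [Field F] [Fintype F] [DecidableEq F] (r : ℕ) : Finset F := (RF F r).erase 0

lemma mem_RF {x : F} : x ∈ RF F r ↔ x ^ r = x := by
  unfold RF
  simp

lemma mem_KF {x : F} : x ∈ KF F r ↔ x ≠ 0 ∧ x ^ r = x := by
  unfold KF
  rw [mem_erase, mem_RF]

section

variable (hr : Fintype.card F = r ^ 2) (hF : ringChar F ≠ 2)
include hr hF

lemma r_odd : r % 2 = 1 := by
  have h := FiniteField.odd_card_of_char_ne_two hF
  rw [hr] at h
  rcases Nat.mod_two_eq_zero_or_one r with h1 | h1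
  · rw [Nat.pow_mod, h1] at h
    norm_num at h
  · exact h1

lemma r_three : 3 ≤ r := by
  have h := r_odd hr hF
  have h2 : 1 < Fintype.card F := Fintype.one_lt_card
  rw [hr] at h2
  rcases Nat.lt_or_ge r 3 with h3 | h3
  · have : r = 1 := by omega
    rw [this] at h2
    norm_num at h2
  · exact h3

lemma pow_r1 {a : F} (ha : a ∈ KF F r) : a ^ (r - 1) = 1 := by
  rw [mem_KF] at ha
  have h3 := r_three hr hF
  have h1 : a ^ (r - 1) * a = 1 * a := by
    rw [← pow_succ, one_mul, Nat.sub_add_cancel (by omega)]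
    exact ha.2
  exact mul_right_cancel₀ ha.1 h1

lemma chi_KF {a : F} (ha : a ∈ KF F r) : quadraticChar F a = 1 := by
  have h0 := (mem_KF.1 ha).1
  rw [quadraticChar_one_iff_isSquare h0, FiniteField.isSquare_iff hF h0, hr]
  obtain ⟨s, hs⟩ : ∃ s, r = 2 * s + 1 := ⟨r / 2, by have := r_odd hr hF; omega⟩
  have h1 : r ^ 2 / 2 = (r - 1) * (s + 1) := by
    rw [hs, Nat.add_sub_cancel]
    have : (2 * s + 1) ^ 2 = 2 * (2 * s * (s + 1)) + 1 := by ring
    rw [this]
    omega
  rw [h1, pow_mul, pow_r1 hr hF ha, one_pow]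

lemma card_units_r : Fintype.card Fˣ = (r - 1) * (r + 1) := by
  rw [Fintype.card_units, hr]
  have h3 := r_three hr hF
  obtain ⟨s, hs⟩ : ∃ s, r = s + 1 := ⟨r - 1, by omega⟩
  rw [hs, Nat.add_sub_cancel]
  have : (s + 1) ^ 2 = s * (s + 1 + 1) + 1 := by ring
  rw [this, Nat.add_sub_cancel]

lemma card_ker (k : ℕ) (hk : k ∣ (r - 1) * (r + 1)) : (univ.filter fun u : Fˣ => u ^ k = 1).card = k := by
  have h2 := IsCyclic.card_powMonoidHom_ker (G := Fˣ) k
  rw [Nat.card_eq_fintype_card, Nat.card_eq_fintype_card, card_units_r hr hF, Nat.gcd_eq_right hk] at h2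
  refine Eq.trans ?_ h2
  rw [← Fintype.card_subtype]
  exact Fintype.card_congr (Equiv.refl _)

lemma card_KF : (KF F r).card = r - 1 := by
  rw [← card_ker hr hF (r - 1) (dvd_mul_right _ _)]
  symm
  refine card_bij (fun (u : Fˣ) _ => (u : F)) (fun u hu => ?_) (fun u _ v _ h => Units.ext h) (fun x hx => ?_)
  · rw [mem_filter] at hu
    rw [mem_KF]
    refine ⟨u.ne_zero, ?_⟩
    have h3 := r_three hr hF
    have h1 : (u : F) ^ (r - 1) = 1 := by
      have := congrArg (fun y : Fˣ => (y : F)) hu.2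
      simpa using this
    have h4 : r = (r - 1) + 1 := by omega
    rw [h4, pow_succ, h1, one_mul]
  · have h0 := (mem_KF.1 hx).1
    refine ⟨Units.mk0 x h0, ?_, rfl⟩
    rw [mem_filter]
    refine ⟨mem_univ _, ?_⟩
    ext
    rw [Units.val_pow_eq_pow_val, Units.val_mk0, pow_r1 hr hF hx, Units.val_one]

lemma zero_mem : (0 : F) ∈ RF F r := by
  rw [mem_RF, zero_pow]
  have := r_three hr hF
  omega

lemma card_RF : (RF F r).card = r := by
  have h1 := card_KF hr hF
  unfold KF at h1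
  rw [card_erase_of_mem (zero_mem hr hF)] at h1
  have h2 : 0 < (RF F r).card := card_pos.2 ⟨0, zero_mem hr hF⟩
  have := r_three hr hF
  omega

variable (hadd : ∀ x y : F, (x + y) ^ r = x ^ r + y ^ r)
include hadd

lemma neg_pow_r (x : F) : (-x) ^ r = -x ^ r := by
  have h := Nat.odd_iff.2 (r_odd hr hF)
  exact h.neg_pow x

/-- the sum over a line -/
lemma line {z : F} (hz : z ∉ RF F r) : ∑ c ∈ RF F r, quadraticChar F (z + c) = -1 := by
  have hr3 := r_three hr hF
  have hsub : ∀ x y : F, x ∈ RF F r → y ∈ RF F r → x - y ∈ RF F r := by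
    intro x y hx hy
    rw [mem_RF] at *
    rw [sub_eq_add_neg, hadd, neg_pow_r hr hF hadd, hx, hy]
  have hmul : ∀ x y : F, x ∈ RF F r → y ∈ RF F r → x * y ∈ RF F r := by
    intro x y hx hy
    rw [mem_RF] at *
    rw [mul_pow, hx, hy]
  have hinv : ∀ x : F, x ∈ RF F r → x⁻¹ ∈ RF F r := by
    intro x hx
    rw [mem_RF] at *
    rw [inv_pow, hx]
  have hKR : ∀ a ∈ KF F r, a ∈ RF F r ∧ a ≠ 0 := fun a ha => ⟨mem_RF.2 (mem_KF.1 ha).2, (mem_KF.1 ha).1⟩
  have hinj : Set.InjOn (fun x : F × F => x.2 * (z + x.1)) ↑(RF F r ×ˢ KF F r) := by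
    rintro ⟨c, a⟩ h1 ⟨c', a'⟩ h2 h
    rw [mem_coe, mem_product] at h1 h2
    dsimp only at h h1 h2
    have ha := hKR a h1.2
    have ha' := hKR a' h2.2
    by_cases haa : a = a'
    · subst haa
      have h3 := mul_left_cancel₀ ha.2 h
      have h4 : c = c' := add_left_cancel h3
      rw [h4]
    · exfalso
      apply hz
      have h3 : a - a' ≠ 0 := sub_ne_zero.2 haa
      have h4 : z = (a' * c' - a * c) * (a - a')⁻¹ := by
        rw [eq_mul_inv_iff_mul_eq₀ h3]
        linear_combination h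
      rw [h4]
      exact hmul _ _ (hsub _ _ (hmul _ _ ha'.1 h2.1) (hmul _ _ ha.1 h1.1)) (hinv _ (hsub _ _ ha.1 ha'.1))
  have himg : (RF F r ×ˢ KF F r).image (fun x : F × F => x.2 * (z + x.1)) = univ \ RF F r := by
    refine eq_of_subset_of_card_le ?_ ?_
    · intro w hw
      rw [mem_image] at hw
      obtain ⟨⟨c, a⟩, h1, rfl⟩ := hw
      rw [mem_product] at h1
      dsimp only at h1 ⊢
      rw [mem_sdiff]
      refine ⟨mem_univ _, fun h2 => hz ?_⟩
      have ha := hKR a h1.2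
      have h3 : z = a⁻¹ * (a * (z + c)) - c := by
        rw [inv_mul_cancel_left₀ ha.2, add_sub_cancel_right]
      rw [h3]
      exact hsub _ _ (hmul _ _ (hinv _ ha.1) h2) h1.1
    · rw [card_image_of_injOn hinj, card_product, card_RF hr hF, card_KF hr hF, card_univ_sdiff, hr, card_RF hr hF]
      refine le_of_eq ?_
      rw [pow_two, Nat.mul_sub_one]
  have h1 : ∑ w ∈ univ \ RF F r, quadraticChar F w = ((r : ℤ) - 1) * ∑ c ∈ RF F r, quadraticChar F (z + c) := by
    rw [← himg, sum_image hinj, sum_product]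
    have h2 : ∀ c ∈ RF F r, ∑ a ∈ KF F r, quadraticChar F (a * (z + c)) = ((r : ℤ) - 1) * quadraticChar F (z + c) := by
      intro c _
      rw [sum_congr rfl fun a ha => by rw [map_mul, chi_KF hr hF ha, one_mul], sum_const, card_KF hr hF, nsmul_eq_mul]
      push_cast [Nat.cast_sub (by omega : 1 ≤ r)]
      rfl
    rw [sum_congr rfl h2, mul_sum]
  have h3 : ∑ w ∈ univ \ RF F r, quadraticChar F w + ∑ w ∈ RF F r, quadraticChar F w = 0 := by
    rw [sum_sdiff (subset_univ _)]
    exact quadraticChar_sum_zero hF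
  have h4 : ∑ w ∈ RF F r, quadraticChar F w = (r : ℤ) - 1 := by
    rw [← add_sum_erase _ _ (zero_mem hr hF), quadraticChar_zero, zero_add]
    show ∑ w ∈ KF F r, quadraticChar F w = _
    rw [sum_congr rfl fun a ha => chi_KF hr hF ha, sum_const, card_KF hr hF, nsmul_eq_mul]
    push_cast [Nat.cast_sub (by omega : 1 ≤ r)]
    ring
  rw [h1, h4] at h3
  have h5 : ((r : ℤ) - 1) ≠ 0 := by
    have : (3 : ℤ) ≤ r := by exact_mod_cast hr3
    omega
  have h6 : ((r : ℤ) - 1) * (∑ c ∈ RF F r, quadraticChar F (z + c) + 1) = 0 := by linarith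
  rcases mul_eq_zero.1 h6 with h7 | h7
  · exact absurd h7 h5
  · linarith

/-- the sum over the multiples -/
lemma inner {z : F} (hz0 : z ≠ 0) : ∑ a ∈ KF F r, quadraticChar F (a * z + 1) =
    if z ∈ RF F r then (r : ℤ) - 2 else -1 - quadraticChar F z := by
  have hr3 := r_three hr hF
  have hbij : ∀ (f : F → ℤ) (y : F), y ∈ KF F r → ∑ a ∈ KF F r, f (a * y) = ∑ a ∈ KF F r, f a := by
    intro f y hy
    have hy' := mem_KF.1 hy
    refine sum_bij' (fun a _ => a * y) (fun a _ => a * y⁻¹) ?_ ?_ ?_ ?_ ?_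
    · intro a ha
      have ha' := mem_KF.1 ha
      rw [mem_KF, mul_pow, ha'.2, hy'.2]
      exact ⟨mul_ne_zero ha'.1 hy'.1, rfl⟩
    · intro a ha
      have ha' := mem_KF.1 ha
      rw [mem_KF, mul_pow, ha'.2, inv_pow, hy'.2]
      exact ⟨mul_ne_zero ha'.1 (inv_ne_zero hy'.1), rfl⟩
    · intro a _
      rw [mul_assoc, mul_inv_cancel₀ hy'.1, mul_one]
    · intro a _
      rw [mul_assoc, inv_mul_cancel₀ hy'.1, mul_one]
    · intro a _
      rfl
  split_ifs with hz
  · have hzK : z ∈ KF F r := mem_KF.2 ⟨hz0, mem_RF.1 hz⟩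
    rw [hbij (fun a => quadraticChar F (a + 1)) z hzK]
    have hm1 : (-1 : F) ∈ KF F r := by
      rw [mem_KF, neg_pow_r hr hF hadd, one_pow]
      exact ⟨neg_ne_zero.2 one_ne_zero, rfl⟩
    rw [← add_sum_erase _ _ hm1, neg_add_cancel, quadraticChar_zero, zero_add]
    have h1 : ∀ a ∈ (KF F r).erase (-1), quadraticChar F (a + 1) = 1 := by
      intro a ha
      rw [mem_erase] at ha
      refine chi_KF hr hF ?_
      rw [mem_KF, hadd, (mem_KF.1 ha.2).2, one_pow]
      exact ⟨fun h => ha.1 (eq_neg_of_add_eq_zero_left h), rfl⟩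
    rw [sum_congr rfl h1, sum_const, card_erase_of_mem hm1, card_KF hr hF, nsmul_eq_mul, mul_one]
    have : r - 1 - 1 = r - 2 := by omega
    rw [this]
    push_cast [Nat.cast_sub (by omega : 2 ≤ r)]
    rfl
  · have h1 : ∑ a ∈ KF F r, quadraticChar F (a * z + 1) = ∑ b ∈ KF F r, quadraticChar F (z + b) := by
      refine sum_bij' (fun a _ => a⁻¹) (fun a _ => a⁻¹) ?_ ?_ ?_ ?_ ?_
      · intro a ha
        have ha' := mem_KF.1 ha
        rw [mem_KF, inv_pow, ha'.2]
        exact ⟨inv_ne_zero ha'.1, rfl⟩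
      · intro a ha
        have ha' := mem_KF.1 ha
        rw [mem_KF, inv_pow, ha'.2]
        exact ⟨inv_ne_zero ha'.1, rfl⟩
      · intro a _
        exact inv_inv a
      · intro a _
        exact inv_inv a
      · intro a ha
        have ha' := mem_KF.1 ha
        have h2 : a * z + 1 = a * (z + a⁻¹) := by
          rw [mul_add, mul_inv_cancel₀ ha'.1]
        rw [h2, map_mul, chi_KF hr hF ha, one_mul]
    have h2 := line hr hF hadd hz
    rw [← add_sum_erase _ _ (zero_mem hr hF), add_zero] at h2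
    rw [h1]
    have h3 : ∑ b ∈ KF F r, quadraticChar F (z + b) = ∑ b ∈ (RF F r).erase 0, quadraticChar F (z + b) := rfl
    rw [h3]
    linarith

omit hadd in
lemma root {n : ℕ} (hn : n ∣ r + 1) {a : F} (ha : a ∈ KF F r) : ∃ b : Fˣ, (b : F) ^ n = a := by
  have hr3 := r_three hr hF
  obtain ⟨k, hk⟩ := hn
  have hn0 : 0 < n := Nat.pos_of_ne_zero fun h => by rw [h, zero_mul] at hk; omega
  have ha0 := (mem_KF.1 ha).1
  obtain ⟨g, hg⟩ := IsCyclic.exists_generator (α := Fˣ)
  have hord : orderOf g = (r - 1) * (r + 1) := by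
    rw [orderOf_eq_card_of_forall_mem_zpowers hg, Nat.card_eq_fintype_card, card_units_r hr hF]
  obtain ⟨j, hj⟩ := mem_powers_iff_mem_zpowers.2 (hg (Units.mk0 a ha0))
  have h1 : g ^ (j * ((r - 1) * k)) = 1 := by
    rw [pow_mul]
    have hj' : g ^ j = Units.mk0 a ha0 := hj
    rw [hj', pow_mul]
    have : (Units.mk0 a ha0) ^ (r - 1) = 1 := by
      ext
      rw [Units.val_pow_eq_pow_val, Units.val_mk0, pow_r1 hr hF ha, Units.val_one]
    rw [this, one_pow]
  have h2 := orderOf_dvd_of_pow_eq_one h1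
  rw [hord, hk] at h2
  have hk0 : 0 < k := Nat.pos_of_ne_zero fun h => by rw [h, mul_zero] at hk; omega
  have h3 : n ∣ j := by
    have h4 : (r - 1) * k * n ∣ (r - 1) * k * j := by
      have e1 : (r - 1) * (n * k) = (r - 1) * k * n := by ring
      have e2 : j * ((r - 1) * k) = (r - 1) * k * j := by ring
      rw [← e1, ← e2]
      exact h2
    exact Nat.dvd_of_mul_dvd_mul_left (Nat.mul_pos (by omega) hk0) h4
  obtain ⟨i, hi⟩ := h3
  refine ⟨g ^ i, ?_⟩
  have h5 : (g ^ i) ^ n = Units.mk0 a ha0 := by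
    rw [← pow_mul, mul_comm, ← hi]
    exact hj
  have := congrArg (fun y : Fˣ => (y : F)) h5
  simpa using this

/-- **the power sum** -/
theorem powsum {n : ℕ} (hn : n ∣ r + 1) (hne : Even n) : ∑ u : Fˣ, quadraticChar F ((u : F) ^ n + 1) = n * r - 2 * (r + 1) := by
  have hr3 := r_three hr hF
  have h1 : ((r : ℤ) - 1) * ∑ u : Fˣ, quadraticChar F ((u : F) ^ n + 1) = ∑ a ∈ KF F r, ∑ u : Fˣ, quadraticChar F (a * (u : F) ^ n + 1) := by
    have h2 : ∀ a ∈ KF F r, ∑ u : Fˣ, quadraticChar F (a * (u : F) ^ n + 1) = ∑ u : Fˣ, quadraticChar F ((u : F) ^ n + 1) := by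
      intro a ha
      obtain ⟨b, hb⟩ := root hr hF hn ha
      rw [← Equiv.sum_comp (Equiv.mulLeft b) fun u : Fˣ => quadraticChar F ((u : F) ^ n + 1)]
      refine sum_congr rfl fun u _ => ?_
      rw [Equiv.coe_mulLeft, Units.val_mul, mul_pow, hb]
    rw [sum_congr rfl h2, sum_const, card_KF hr hF, nsmul_eq_mul]
    push_cast [Nat.cast_sub (by omega : 1 ≤ r)]
    rfl
  have h3 : ∀ u : Fˣ, ∑ a ∈ KF F r, quadraticChar F (a * (u : F) ^ n + 1) = if u ^ (n * (r - 1)) = 1 then (r : ℤ) - 2 else -2 := by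
    intro u
    rw [inner hr hF hadd (pow_ne_zero n u.ne_zero)]
    have h4 : (u : F) ^ n ∈ RF F r ↔ u ^ (n * (r - 1)) = 1 := by
      constructor
      · intro h
        have h5 := pow_r1 hr hF (mem_KF.2 ⟨pow_ne_zero n u.ne_zero, mem_RF.1 h⟩)
        ext
        rw [Units.val_pow_eq_pow_val, pow_mul, h5, Units.val_one]
      · intro h
        have h5 : ((u : F) ^ n) ^ (r - 1) = 1 := by
          rw [← pow_mul]
          have := congrArg (fun y : Fˣ => (y : F)) h
          simpa using this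
        rw [mem_RF]
        have h6 : r = (r - 1) + 1 := by omega
        conv_lhs => rw [h6]
        rw [pow_succ, h5, one_mul]
    have h7 : quadraticChar F ((u : F) ^ n) = 1 := by
      obtain ⟨k, hk⟩ := hne
      rw [hk, ← two_mul, pow_mul, map_pow, quadraticChar_sq_one' ]
      · rw [one_pow]
      · exact u.ne_zero
    by_cases h8 : u ^ (n * (r - 1)) = 1
    · rw [if_pos (h4.2 h8), if_pos h8]
    · rw [if_neg fun h => h8 (h4.1 h), if_neg h8, h7]
      norm_num
  rw [sum_comm, sum_congr rfl fun u _ => h3 u] at h1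
  have hdvd : n * (r - 1) ∣ (r - 1) * (r + 1) := by
    rw [mul_comm (r - 1)]
    exact mul_dvd_mul_right hn _
  have hM := card_ker hr hF (n * (r - 1)) hdvd
  rw [sum_ite, sum_const, sum_const, hM, nsmul_eq_mul, nsmul_eq_mul] at h1
  have hN : (univ.filter fun u : Fˣ => ¬ u ^ (n * (r - 1)) = 1).card = (r - 1) * (r + 1) - n * (r - 1) := by
    have h9 := card_filter_add_card_filter_not (s := (univ : Finset Fˣ)) (fun u : Fˣ => u ^ (n * (r - 1)) = 1)
    rw [hM, card_univ, card_units_r hr hF] at h9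
    omega
  rw [hN] at h1
  have hle : n * (r - 1) ≤ (r - 1) * (r + 1) := Nat.le_of_dvd (Nat.mul_pos (by omega) (by omega)) hdvd
  have h5 : ((r : ℤ) - 1) ≠ 0 := by
    have : (3 : ℤ) ≤ r := by exact_mod_cast hr3
    omega
  have h10 : ((r : ℤ) - 1) * (∑ u : Fˣ, quadraticChar F ((u : F) ^ n + 1)) = ((r : ℤ) - 1) * (n * r - 2 * (r + 1)) := by
    rw [h1]
    push_cast [Nat.cast_sub hle, Nat.cast_sub (by omega : 1 ≤ r)]
    ring
  exact mul_left_cancel₀ h5 h10

end

end Pool.Agent.H25V
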