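import Pool.Agent.H25V.P
import Pool.Agent.R414.CB.Sum

set_option autoImplicit false
set_option linter.unusedSectionVars false

/-! The character sums of `φ_(2 e)` and `φ_e`. -/

namespace Pool.Agent.H25V

open Finset
open Pool.Agent.R414.CB (phi phi_add_inv phi_trace sum_subst card_units_eq pow_mu)

variable {F E : Type} [Field F] [Fintype F] [DecidableEq F] [Field E] [Fintype E] [DecidableEq E] [Algebra F E]

/-- substitution of a power in a sum over the torus -/
lemma sum_pow_coprime (hc : Fintype.card E = Fintype.card F ^ 2) (G : Eˣ → ℤ) (c : ℕ) (hcop : c.Coprime (Fintype.card F + 1)) :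
    ∑ z : Eˣ, G ((z ^ (Fintype.card F - 1)) ^ c) = ∑ z : Eˣ, G (z ^ (Fintype.card F - 1)) := by
  have hN := card_units_eq (F := F) (E := E) hc
  have : NeZero (Fintype.card Eˣ) := ⟨Fintype.card_ne_zero⟩
  have hdvd : Fintype.card F + 1 ∣ Fintype.card Eˣ := hN ▸ dvd_mul_left _ _
  obtain ⟨c', hc'⟩ := ZMod.unitsMap_surjective hdvd (ZMod.unitOfCoprime c hcop)
  obtain ⟨k, hk⟩ : ∃ k : ℕ, k = (c' : ZMod (Fintype.card Eˣ)).val := ⟨_, rfl⟩
  have hkc : (Fintype.card Eˣ).Coprime k := by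
    rw [hk]
    exact (ZMod.val_coe_unit_coprime c').symm
  have hmod : k ≡ c [MOD Fintype.card F + 1] := by
    rw [← ZMod.natCast_eq_natCast_iff]
    have h1 := congrArg (fun x : (ZMod (Fintype.card F + 1))ˣ => (x : ZMod (Fintype.card F + 1))) hc'
    simp only [ZMod.unitsMap_val, ZMod.coe_unitOfCoprime] at h1
    rw [← h1, hk]
    exact ZMod.natCast_val _
  have hkc' : (Nat.card Eˣ).Coprime k := by
    rw [Nat.card_eq_fintype_card]
    exact hkc
  rw [← Equiv.sum_comp (powCoprime hkc') fun z : Eˣ => G (z ^ (Fintype.card F - 1))]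
  refine sum_congr rfl fun z _ => ?_
  rw [powCoprime_apply]
  congr 1
  rw [← pow_mul z k, mul_comm k, pow_mul]
  have h2 := pow_mu hc z
  rw [pow_eq_pow_iff_modEq]
  exact (hmod.of_dvd (orderOf_dvd_of_pow_eq_one h2)).symm

/-- the sums over the torus for `2 e` and `e` agree -/
lemma torus (hc : Fintype.card E = Fintype.card F ^ 2) (h4 : Fintype.card F % 4 = 1) {e : ℕ} (he : Odd e)
    (hcop : e.Coprime (Fintype.card F + 1)) :
    ∑ z : Eˣ, quadraticChar F ((phi F (2 * e)).eval (Algebra.trace F E ((z : E) ^ (Fintype.card F - 1)))) =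
      ∑ z : Eˣ, quadraticChar F ((phi F e).eval (Algebra.trace F E ((z : E) ^ (Fintype.card F - 1)))) := by
  obtain ⟨q, hq⟩ : ∃ q, q = Fintype.card F := ⟨_, rfl⟩
  obtain ⟨h, hh⟩ : ∃ h, q + 1 = 2 * h := ⟨(q + 1) / 2, by omega⟩
  have hodd : h % 2 = 1 := by omega
  obtain ⟨G, hG⟩ : ∃ G : Eˣ → ℤ, G = fun w : Eˣ => quadraticChar F (Algebra.trace F E (w : E)) := ⟨_, rfl⟩
  have hneg : ∀ w : Eˣ, G (-w) = G w := by
    intro w
    rw [hG]
    show quadraticChar F (Algebra.trace F E ((-w : Eˣ) : E)) = quadraticChar F (Algebra.trace F E (w : E))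
    rw [Units.val_neg, map_neg, ← neg_one_mul, map_mul]
    have h1 : quadraticChar F (-1) = 1 := by
      rw [quadraticChar_one_iff_isSquare (neg_ne_zero.2 one_ne_zero), FiniteField.isSquare_neg_one_iff]
      omega
    rw [h1, one_mul]
  have hphi : ∀ (d : ℕ) (z : Eˣ), quadraticChar F ((phi F d).eval (Algebra.trace F E ((z : E) ^ (Fintype.card F - 1)))) =
      G ((z ^ (Fintype.card F - 1)) ^ d) := by
    intro d z
    rw [phi_trace hc, hG]
    show _ = quadraticChar F (Algebra.trace F E (((z ^ (Fintype.card F - 1)) ^ d : Eˣ) : E))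
    rw [← pow_mul, Units.val_pow_eq_pow_val]
  simp only [hphi]
  rw [sum_pow_coprime hc G e hcop]
  have hcop2 : (e * (h + 2)).Coprime (Fintype.card F + 1) := by
    refine Nat.Coprime.mul_left hcop ?_
    rw [← hq, hh]
    refine Nat.Coprime.mul_right ?_ ?_
    · rw [Nat.coprime_two_right, Nat.odd_iff]
      omega
    · rw [Nat.coprime_self_add_left]
      exact (Nat.coprime_two_left.2 (Nat.odd_iff.2 hodd))
  rw [← sum_pow_coprime hc G (e * (h + 2)) hcop2]
  refine sum_congr rfl fun z _ => ?_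
  obtain ⟨w, hw⟩ : ∃ w, w = z ^ (Fintype.card F - 1) := ⟨_, rfl⟩
  have hw1 : w ^ (2 * h) = 1 := by
    rw [hw, ← hh, hq]
    exact pow_mu hc z
  rw [← hw]
  have h2 : w ^ (e * (h + 2)) = (w ^ h) ^ e * w ^ (2 * e) := by
    rw [← pow_mul, ← pow_add]
    congr 1
    ring
  have h3 : w ^ h = 1 ∨ w ^ h = -1 := by
    have h5 : (w ^ h) ^ 2 = 1 := by
      rw [← pow_mul, mul_comm h]
      exact hw1
    have h6 : ((w ^ h : Eˣ) : E) ^ 2 = 1 := by
      rw [← Units.val_pow_eq_pow_val, h5, Units.val_one]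
    rcases (mul_self_eq_one_iff.1 ((pow_two _).symm.trans h6)) with h7 | h7
    · exact Or.inl (Units.ext h7)
    · exact Or.inr (Units.ext h7)
  rw [h2]
  rcases h3 with h3 | h3
  · rw [h3, one_pow, one_mul]
  · rw [h3, he.neg_one_pow, neg_one_mul, hneg]

/-- the sums over the multiplicative group -/
lemma group {r : ℕ} (hr : Fintype.card F = r ^ 2) (hF : ringChar F ≠ 2) (hadd : ∀ x y : F, (x + y) ^ r = x ^ r + y ^ r) {e : ℕ} (he : Odd e)
    (hd : 2 * e ∣ r + 1) :
    ∑ t : Fˣ, quadraticChar F ((phi F (2 * e)).eval ((t : F) + (t⁻¹ : Fˣ))) =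
      ∑ t : Fˣ, quadraticChar F ((phi F e).eval ((t : F) + (t⁻¹ : Fˣ))) + (2 * e * r - 2 * (r + 1)) := by
  have hpow : ∀ (d : ℕ) (t : Fˣ), quadraticChar F ((phi F d).eval ((t : F) + (t⁻¹ : Fˣ))) =
      quadraticChar F (t : F) ^ d * quadraticChar F ((t : F) ^ (2 * d) + 1) := by
    intro d t
    rw [phi_add_inv]
    have h1 : (t : F) ^ d + ((t⁻¹ : Fˣ) : F) ^ d = ((t⁻¹ : Fˣ) : F) ^ d * ((t : F) ^ (2 * d) + 1) := by
      have h2 : ((t⁻¹ : Fˣ) : F) ^ d * (t : F) ^ d = 1 := by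
        rw [← mul_pow, Units.inv_mul, one_pow]
      have h3 : (t : F) ^ (2 * d) = (t : F) ^ d * (t : F) ^ d := by
        rw [two_mul, pow_add]
      rw [h3, mul_add, mul_one, ← mul_assoc, h2, one_mul]
    rw [h1, map_mul, map_pow]
    congr 2
    have h4 : quadraticChar F ((t⁻¹ : Fˣ) : F) * quadraticChar F (t : F) = 1 := by
      rw [← map_mul, Units.inv_mul, map_one]
    have h5 : quadraticChar F (t : F) ^ 2 = 1 := quadraticChar_sq_one t.ne_zero
    have h6 : quadraticChar F ((t⁻¹ : Fˣ) : F) * (quadraticChar F (t : F) * quadraticChar F (t : F)) = quadraticChar F (t : F) := by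
      rw [← mul_assoc, h4, one_mul]
    rw [← pow_two, h5, mul_one] at h6
    exact h6
  have hsq : ∀ f : F → ℤ, ∑ t : Fˣ, f ((t : F) ^ 2) = ∑ u : Fˣ, (1 + quadraticChar F (u : F)) * f u := by
    intro f
    rw [← sum_fiberwise univ (fun t : Fˣ => t ^ 2)]
    refine sum_congr rfl fun u _ => ?_
    have h1 : ∑ t ∈ univ.filter (fun t : Fˣ => t ^ 2 = u), f ((t : F) ^ 2) = ((univ.filter (fun t : Fˣ => t ^ 2 = u)).card : ℤ) * f u := by
      rw [sum_congr rfl (g := fun _ => f u), sum_const, nsmul_eq_mul]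
      intro t ht
      rw [mem_filter] at ht
      rw [← ht.2, Units.val_pow_eq_pow_val]
    rw [h1]
    congr 1
    have h2 := quadraticChar_card_sqrts hF (u : F)
    rw [add_comm, ← h2, Nat.cast_inj]
    refine card_bij (fun (t : Fˣ) _ => (t : F)) (fun t ht => ?_) (fun a _ b _ h => Units.ext h) (fun x hx => ?_)
    · rw [mem_filter] at ht
      simp only [Set.mem_toFinset, Set.mem_ofPred_eq]
      rw [← ht.2, Units.val_pow_eq_pow_val]
    · simp only [Set.mem_toFinset, Set.mem_ofPred_eq] at hx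
      have hx0 : x ≠ 0 := by
        rintro rfl
        rw [zero_pow two_ne_zero] at hx
        exact u.ne_zero hx.symm
      refine ⟨Units.mk0 x hx0, ?_, rfl⟩
      rw [mem_filter]
      refine ⟨mem_univ _, ?_⟩
      ext
      rw [Units.val_pow_eq_pow_val, Units.val_mk0, hx]
  have h1 : ∑ t : Fˣ, quadraticChar F ((phi F (2 * e)).eval ((t : F) + (t⁻¹ : Fˣ))) =
      ∑ t : Fˣ, quadraticChar F (((t : F) ^ 2) ^ (2 * e) + 1) := by
    refine sum_congr rfl fun t _ => ?_
    rw [hpow, pow_mul, quadraticChar_sq_one t.ne_zero, one_pow, one_mul]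
    congr 2
    rw [← pow_mul]
  have h2 : ∑ t : Fˣ, quadraticChar F ((phi F e).eval ((t : F) + (t⁻¹ : Fˣ))) =
      ∑ t : Fˣ, quadraticChar F (t : F) * quadraticChar F ((t : F) ^ (2 * e) + 1) := by
    refine sum_congr rfl fun t _ => ?_
    rw [hpow]
    congr 1
    obtain ⟨c, hc⟩ := he
    rw [hc, pow_succ, pow_mul, quadraticChar_sq_one t.ne_zero, one_pow, one_mul]
  rw [h1, h2, hsq fun x => quadraticChar F (x ^ (2 * e) + 1)]
  have h3 := powsum hr hF hadd hd (even_two_mul e)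
  have h4 : ∑ u : Fˣ, (1 + quadraticChar F (u : F)) * quadraticChar F ((u : F) ^ (2 * e) + 1) =
      ∑ u : Fˣ, quadraticChar F ((u : F) ^ (2 * e) + 1) + ∑ u : Fˣ, quadraticChar F (u : F) * quadraticChar F ((u : F) ^ (2 * e) + 1) := by
    rw [← sum_add_distrib]
    exact sum_congr rfl fun u _ => by ring
  rw [h4, h3]
  push_cast
  ring

/-- **the two character sums** -/
theorem two_e {r : ℕ} (hr : Fintype.card F = r ^ 2) (hF : ringChar F ≠ 2) (hadd : ∀ x y : F, (x + y) ^ r = x ^ r + y ^ r) {e : ℕ} (he : Odd e)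
    (hd : 2 * e ∣ r + 1) (hc : Fintype.card E = Fintype.card F ^ 2) :
    ∑ x : F, quadraticChar F ((phi F (2 * e)).eval x) = ∑ x : F, quadraticChar F ((phi F e).eval x) + ((e - 1) * r - 1) := by
  have hr3 := r_three hr hF
  have hro := r_odd hr hF
  have h4 : Fintype.card F % 4 = 1 := by
    rw [hr]
    obtain ⟨s, hs⟩ : ∃ s, r = 2 * s + 1 := ⟨r / 2, by omega⟩
    rw [hs]
    have : (2 * s + 1) ^ 2 = 4 * (s * s + s) + 1 := by ring
    omega
  have hcop : e.Coprime (Fintype.card F + 1) := by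
    have h1 : e ∣ r + 1 := (dvd_mul_left e 2).trans hd
    have h2 : e ∣ r ^ 2 - 1 := by
      have : r ^ 2 - 1 = (r + 1) * (r - 1) := by
        have := Nat.sq_sub_sq r 1
        rw [one_pow] at this
        exact this
      rw [this]
      exact h1.mul_right _
    have h5 : Nat.gcd e (r ^ 2 + 1) ∣ 2 := by
      have h6 : Nat.gcd e (r ^ 2 + 1) ∣ r ^ 2 - 1 := (Nat.gcd_dvd_left _ _).trans h2
      have h7 : Nat.gcd e (r ^ 2 + 1) ∣ r ^ 2 + 1 := Nat.gcd_dvd_right _ _
      have h8 : 1 ≤ r ^ 2 := Nat.one_le_pow _ _ (by omega)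
      have h9 := (Nat.dvd_sub h7 h6)
      have h10 : r ^ 2 + 1 - (r ^ 2 - 1) = 2 := by omega
      rwa [h10] at h9
    rw [hr]
    rcases (Nat.dvd_prime Nat.prime_two).1 h5 with h6 | h6
    · exact h6
    · exfalso
      have h7 : 2 ∣ e := h6 ▸ Nat.gcd_dvd_left _ _
      rw [Nat.odd_iff] at he
      omega
  have ht := torus (F := F) (E := E) hc h4 he hcop
  have hg := group hr hF hadd he hd
  have s1 := sum_subst (F := F) (E := E) hc (K := ℚ) fun x => ((quadraticChar F ((phi F (2 * e)).eval x) : ℤ) : ℚ)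
  have s2 := sum_subst (F := F) (E := E) hc (K := ℚ) fun x => ((quadraticChar F ((phi F e).eval x) : ℤ) : ℚ)
  simp only [← Int.cast_sum] at s1 s2
  rw [ht, hg] at s1
  have hq : ((Fintype.card F : ℚ) - 1) ≠ 0 := by
    have : (1 : ℚ) < Fintype.card F := by exact_mod_cast (Fintype.one_lt_card (α := F))
    linarith
  have h5 : (2 * ((Fintype.card F : ℚ) - 1)) * ((∑ x : F, quadraticChar F ((phi F (2 * e)).eval x) : ℤ) : ℚ) =
      (2 * ((Fintype.card F : ℚ) - 1)) * ((∑ x : F, quadraticChar F ((phi F e).eval x) + ((e - 1) * r - 1) : ℤ) : ℚ) := by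
    rw [← s1]
    push_cast at s2 ⊢
    linear_combination s2
  have h6 := mul_left_cancel₀ (mul_ne_zero two_ne_zero hq) h5
  exact_mod_cast h6

end Pool.Agent.H25V
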